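import Pool.Agent.H62.Per.Defs

/-! Module PART of MP_588c6d_co: `part : HAM → PART`. -/

set_option autoImplicit false

open Finset

namespace Pool.Agent.H91.Per

open Pool.Agent.H62.Per

theorem cfc {α : Type*} (s : Finset α) (p q : α → Prop) {_ : DecidablePred p}
    {_ : DecidablePred q} (h : ∀ x ∈ s, p x ↔ q x) : (s.filter p).card = (s.filter q).card := by
  congr 1
  ext x
  rw [Finset.mem_filter, Finset.mem_filter]
  constructor
  · rintro ⟨h1, h2⟩; exact ⟨h1, (h x h1).1 h2⟩
  · rintro ⟨h1, h2⟩; exact ⟨h1, (h x h1).2 h2⟩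

open Classical in
/-- pairs on the same side of all the `g i`, `i < j` -/
noncomputable def Ej (C : Finset Pl) (g : ℕ → Pl → ℝ) (j : ℕ) : ℕ :=
  (C.offDiag.filter (fun s => ∀ i < j, 0 < g i s.1 * g i s.2)).card

theorem ej_congr (C : Finset Pl) (g g' : ℕ → Pl → ℝ) (j : ℕ) (h : ∀ i < j, g i = g' i) :
    Ej C g j = Ej C g' j := by
  unfold Ej
  apply cfc
  intro s _
  constructor
  · intro hs i hi
    rw [← h i hi]; exact hs i hi
  · intro hs i hi
    rw [h i hi]; exact hs i hi

theorem ej_zero_le (C : Finset Pl) (g : ℕ → Pl → ℝ) : (Ej C g 0 : ℝ) ≤ (C.card : ℝ) ^ 2 := by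
  have h1 : Ej C g 0 ≤ C.offDiag.card := Finset.card_filter_le _ _
  have h2 : C.offDiag.card ≤ C.card * C.card := by
    rw [Finset.offDiag_card]; exact Nat.sub_le _ _
  have h4 : (Ej C g 0 : ℝ) ≤ ((C.card * C.card : ℕ) : ℝ) := by exact_mod_cast h1.trans h2
  rw [Nat.cast_mul] at h4
  rw [pow_two]
  exact h4

open Classical in
/-- the colour of a point -/
noncomputable def col (g : ℕ → Pl → ℝ) (j : ℕ) (x : Pl) : Option Pl × (Fin j → SignType) :=
  (if ∃ i < j, g i x = 0 then some x else none, fun i => SignType.sign (g i x))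

theorem pos_mul_iff_sign (a b : ℝ) :
    0 < a * b ↔ a ≠ 0 ∧ b ≠ 0 ∧ SignType.sign a = SignType.sign b := by
  rcases lt_trichotomy a 0 with ha | ha | ha
  · rcases lt_trichotomy b 0 with hb | hb | hb
    · simp [sign_neg ha, sign_neg hb, mul_pos_of_neg_of_neg ha hb, ha.ne, hb.ne]
    · subst hb; simp
    · have : a * b < 0 := mul_neg_of_neg_of_pos ha hb
      simp [sign_neg ha, sign_pos hb, this.le]
  · subst ha; simp
  · rcases lt_trichotomy b 0 with hb | hb | hb
    · have : a * b < 0 := mul_neg_of_pos_of_neg ha hb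
      simp [sign_pos ha, sign_neg hb, this.le]
    · subst hb; simp
    · simp [sign_pos ha, sign_pos hb, mul_pos ha hb, ha.ne', hb.ne']

theorem col_eq_iff (g : ℕ → Pl → ℝ) (j : ℕ) (x y : Pl) (hxy : x ≠ y) :
    col g j x = col g j y ↔ ∀ i < j, 0 < g i x * g i y := by
  unfold col
  rw [Prod.mk.injEq]
  constructor
  · rintro ⟨h1, h2⟩ i hi
    have h3 : ¬ ∃ i < j, g i x = 0 := by
      intro h
      rw [if_pos h] at h1
      split_ifs at h1 with h'
      exact hxy (Option.some.inj h1)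
    have h4 : ¬ ∃ i < j, g i y = 0 := by
      intro h
      rw [if_neg h3, if_pos h] at h1
      exact absurd h1 (by simp)
    rw [pos_mul_iff_sign]
    push Not at h3 h4
    exact ⟨h3 i hi, h4 i hi, congrFun h2 ⟨i, hi⟩⟩
  · intro h
    have h3 : ¬ ∃ i < j, g i x = 0 := by
      rintro ⟨i, hi, hx⟩
      have := h i hi
      rw [hx, zero_mul] at this
      exact lt_irrefl _ this
    have h4 : ¬ ∃ i < j, g i y = 0 := by
      rintro ⟨i, hi, hx⟩
      have := h i hi
      rw [hx, mul_zero] at this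
      exact lt_irrefl _ this
    rw [if_neg h3, if_neg h4]
    refine ⟨rfl, ?_⟩
    funext i
    exact ((pos_mul_iff_sign _ _).1 (h i.1 i.2)).2.2

theorem ee_col (C : Finset Pl) (g : ℕ → Pl → ℝ) (j : ℕ) : EE C (col g j) = Ej C g j := by
  unfold EE Ej
  apply cfc
  intro s hs
  exact col_eq_iff g j s.1 s.2 (Finset.mem_offDiag.1 hs).2.2

/-- monomials -/
noncomputable def mono (m : ℕ) (x : Pl) : Fin (m * m) → ℝ :=
  fun k => x.1 ^ ((finProdFinEquiv.symm k).1 : ℕ) * x.2 ^ ((finProdFinEquiv.symm k).2 : ℕ)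

/-- array of a vector -/
def arr (m : ℕ) (f : Fin (m * m) → ℝ) : Arr m := fun i j => f (finProdFinEquiv (i, j))

theorem ev_arr (m : ℕ) (f : Fin (m * m) → ℝ) (x : Pl) : ev (arr m f) x = sp f (mono m x) := by
  unfold ev sp arr mono
  rw [← Equiv.sum_comp finProdFinEquiv, ← Finset.univ_product_univ, Finset.sum_product]
  apply Finset.sum_congr rfl
  intro i _
  apply Finset.sum_congr rfl
  intro j _
  simp only [Equiv.symm_apply_apply]
  ring

theorem step (hH : HAM) (C : Finset Pl) (m : ℕ) (hm : 1 ≤ m) (g : ℕ → Pl → ℝ) (j : ℕ) :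
    ∃ h : Arr m, h ≠ 0 ∧ ∀ g' : ℕ → Pl → ℝ, (∀ i < j, g' i = g i) → g' j = ev h →
      2 * (Ej C g' (j + 1) : ℝ) ≤ Ej C g' j + (C.card : ℝ) ^ 2 / (m : ℝ) ^ 2 := by
  obtain ⟨f, hf, h1⟩ := hH (m * m) (Nat.mul_le_mul hm hm) _ C (mono m) (col g j)
  refine ⟨arr m f, ?_, ?_⟩
  · intro h0
    apply hf
    funext k
    have := congrFun (congrFun h0 (finProdFinEquiv.symm k).1) (finProdFinEquiv.symm k).2
    unfold arr at this
    rw [Prod.mk.eta, Equiv.apply_symm_apply] at this
    exact this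
  · intro g' hg' hg
    rw [ee_col] at h1
    have h2 : Ej C g' j = Ej C g j := ej_congr C g' g j hg'
    have h3 : Ej C g' (j + 1) = TT C (mono m) (col g j) f := by
      unfold Ej TT
      apply cfc
      intro s hs
      rw [col_eq_iff g j s.1 s.2 (Finset.mem_offDiag.1 hs).2.2]
      constructor
      · intro h
        refine ⟨fun i hi => ?_, ?_⟩
        · rw [← hg' i hi]; exact h i (by omega)
        · have := h j (by omega)
          rw [hg, ev_arr, ev_arr] at this
          exact this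
      · rintro ⟨h, h'⟩ i hi
        rcases Nat.lt_succ_iff_lt_or_eq.1 hi with hi | hi
        · rw [hg' i hi]; exact h i hi
        · subst hi
          rw [hg, ev_arr, ev_arr]
          exact h'
    rw [h2, h3]
    have h4 : ((m * m : ℕ) : ℝ) = (m : ℝ) ^ 2 := by push_cast; ring
    rw [h4] at h1
    exact h1

theorem seq (hH : HAM) (C : Finset Pl) (m : ℕ → ℕ) (J : ℕ) (hm : ∀ j < J, 1 ≤ m j) :
    ∃ fs : ∀ j, Arr (m j), ∀ j < J, fs j ≠ 0 ∧
      2 * (Ej C (fun i => ev (fs i)) (j + 1) : ℝ) ≤ Ej C (fun i => ev (fs i)) j +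
        (C.card : ℝ) ^ 2 / (m j : ℝ) ^ 2 := by
  induction J with
  | zero => exact ⟨fun j => 0, fun j hj => absurd hj (by omega)⟩
  | succ J ih =>
    obtain ⟨fs, hfs⟩ := ih (fun j hj => hm j (by omega))
    obtain ⟨h, hh, h1⟩ := step hH C (m J) (hm J (by omega)) (fun i => ev (fs i)) J
    refine ⟨Function.update fs J h, ?_⟩
    have key : ∀ i < J, ev (Function.update fs J h i) = ev (fs i) := by
      intro i hi
      rw [Function.update_of_ne (by omega)]
    have keyJ : ev (Function.update fs J h J) = ev h := by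
      rw [Function.update_self]
    intro j hj
    rcases Nat.lt_succ_iff_lt_or_eq.1 hj with hj' | hj'
    · refine ⟨?_, ?_⟩
      · rw [Function.update_of_ne (by omega)]
        exact (hfs j hj').1
      · rw [ej_congr C (fun i => ev (Function.update fs J h i)) (fun i => ev (fs i)) (j + 1)
          (fun i hi => key i (by omega)),
          ej_congr C (fun i => ev (Function.update fs J h i)) (fun i => ev (fs i)) j
          (fun i hi => key i (by omega))]
        exact (hfs j hj').2
    · subst hj'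
      refine ⟨?_, ?_⟩
      · rw [Function.update_self]; exact hh
      · exact h1 (fun i => ev (Function.update fs j h i)) key keyJ

theorem sum_range_two_mul (I : ℕ) (f : ℕ → ℕ) :
    ∑ j ∈ range (2 * I), f (j / 2) = 2 * ∑ i ∈ range I, f i := by
  induction I with
  | zero => simp
  | succ I ih =>
    rw [show 2 * (I + 1) = 2 * I + 1 + 1 by ring, Finset.sum_range_succ, Finset.sum_range_succ,
      ih, Finset.sum_range_succ, show (2 * I + 1) / 2 = I by omega,
      show (2 * I) / 2 = I by omega]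
    ring

theorem sum_pow (I : ℕ) : ∑ i ∈ range I, 2 ^ i * (I - i) + I + 2 = 2 * 2 ^ I := by
  induction I with
  | zero => simp
  | succ I ih =>
    have h1 : ∑ i ∈ range (I + 1), 2 ^ i * (I + 1 - i) =
        ∑ i ∈ range (I + 1), (2 ^ i * (I - i) + 2 ^ i) := by
      apply Finset.sum_congr rfl
      intro i hi
      rw [Finset.mem_range] at hi
      rw [show I + 1 - i = (I - i) + 1 by omega]
      ring
    rw [h1, Finset.sum_add_distrib, Finset.sum_range_succ]
    have h2 : ∑ i ∈ range (I + 1), 2 ^ i + 1 = 2 ^ (I + 1) := by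
      have := Nat.geomSum_eq (m := 2) le_rfl (I + 1)
      rw [this]
      have : 1 ≤ 2 ^ (I + 1) := Nat.one_le_two_pow
      omega
    rw [pow_succ] at h2 ⊢
    have h3 : 2 ^ I * (I - I) = 0 := by simp
    omega

theorem sum_inv_sq (I : ℕ) : ∑ i ∈ range I, 1 / ((I - i : ℕ) : ℝ) ^ 2 ≤ 2 := by
  have h1 : ∑ i ∈ range I, 1 / ((I - i : ℕ) : ℝ) ^ 2 =
      ∑ i ∈ range I, 1 / ((i + 1 : ℕ) : ℝ) ^ 2 := by
    rw [← Finset.sum_range_reflect]
    apply Finset.sum_congr rfl
    intro i hi
    rw [Finset.mem_range] at hi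
    congr 3
    omega
  rw [h1]
  have h2 : ∀ n : ℕ, ∑ i ∈ range (n + 1), 1 / ((i + 1 : ℕ) : ℝ) ^ 2 ≤ 2 - 1 / ((n + 1 : ℕ) : ℝ) := by
    intro n
    induction n with
    | zero => norm_num
    | succ n ih =>
      rw [Finset.sum_range_succ]
      have h3 : (0 : ℝ) < ((n + 1 : ℕ) : ℝ) := by positivity
      have h4 : ((n + 1 + 1 : ℕ) : ℝ) = ((n + 1 : ℕ) : ℝ) + 1 := by push_cast; ring
      rw [h4]
      generalize hx : ((n + 1 : ℕ) : ℝ) = x at *
      have h5 : 1 / (x + 1) ^ 2 ≤ 1 / x - 1 / (x + 1) := by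
        rw [div_sub_div _ _ h3.ne' (by positivity), div_le_div_iff₀ (by positivity) (by positivity)]
        nlinarith
      linarith
  cases I with
  | zero => simp
  | succ n =>
    refine (h2 n).trans ?_
    have : (0 : ℝ) ≤ 1 / ((n + 1 : ℕ) : ℝ) := by positivity
    linarith

/-- MODULE PART -/
theorem part (hH : HAM) : PART := by
  intro I C
  set m : ℕ → ℕ := fun j => 2 ^ (j / 2) * (I - j / 2) with hm
  obtain ⟨fs, hfs⟩ := seq hH C m (2 * I) (by
    intro j hj
    simp only [hm]
    exact Nat.mul_pos (by positivity) (by omega))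
  refine ⟨fun j => m j.1, fun j => fs j.1, fun j => (hfs j.1 j.2).1, ?_, ?_⟩
  · rw [Fin.sum_univ_eq_sum_range (fun j => m j) (2 * I)]
    simp only [hm]
    rw [sum_range_two_mul I (fun i => 2 ^ i * (I - i))]
    have := sum_pow I
    omega
  · set g : ℕ → Pl → ℝ := fun i => ev (fs i) with hg
    have h1 : ∀ i ≤ I, (4 : ℝ) ^ i * (Ej C g (2 * i) : ℝ) ≤
        (C.card : ℝ) ^ 2 * (1 + 3 * ∑ k ∈ range i, 1 / ((I - k : ℕ) : ℝ) ^ 2) := by
      intro i
      induction i with
      | zero =>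
        intro _
        have := ej_zero_le C g
        simpa using this
      | succ i ih =>
        intro hi
        have h2 := ih (by omega)
        have h3 := (hfs (2 * i) (by omega)).2
        have h4 := (hfs (2 * i + 1) (by omega)).2
        simp only [hm] at h3 h4
        rw [show 2 * i / 2 = i by omega] at h3
        rw [show (2 * i + 1) / 2 = i by omega] at h4
        rw [show 2 * (i + 1) = 2 * i + 1 + 1 by ring]
        rw [Finset.sum_range_succ]
        have hpos : (0 : ℝ) < ((I - i : ℕ) : ℝ) := by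
          have : 0 < I - i := by omega
          exact_mod_cast this
        have h5 : (C.card : ℝ) ^ 2 / (((2 ^ i * (I - i) : ℕ)) : ℝ) ^ 2 =
            (C.card : ℝ) ^ 2 * (1 / ((I - i : ℕ) : ℝ) ^ 2) / 4 ^ i := by
          have h6 : (((2 ^ i * (I - i) : ℕ)) : ℝ) ^ 2 = 4 ^ i * ((I - i : ℕ) : ℝ) ^ 2 := by
            rw [Nat.cast_mul, mul_pow]
            congr 1
            push_cast
            rw [← pow_mul, mul_comm i 2, pow_mul]
            norm_num
          rw [h6]
          field_simp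
        rw [h5] at h3 h4
        set q : ℝ := (C.card : ℝ) ^ 2 * (1 / ((I - i : ℕ) : ℝ) ^ 2) with hq
        have h4i : (0 : ℝ) < 4 ^ i := by positivity
        have h7 : (4 : ℝ) ^ i * (q / 4 ^ i) = q := by field_simp
        have h8 : (4 : ℝ) ^ (i + 1) * (Ej C g (2 * i + 1 + 1) : ℝ) ≤
            4 ^ i * (Ej C g (2 * i) : ℝ) + 3 * q := by
          rw [pow_succ]
          have h9 : 4 * (Ej C g (2 * i + 1 + 1) : ℝ) ≤ Ej C g (2 * i) + 3 * (q / 4 ^ i) := by
            linarith
          have h10 := mul_le_mul_of_nonneg_left h9 h4i.le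
          calc (4 : ℝ) ^ i * 4 * (Ej C g (2 * i + 1 + 1) : ℝ)
              = 4 ^ i * (4 * (Ej C g (2 * i + 1 + 1) : ℝ)) := by ring
            _ ≤ 4 ^ i * (Ej C g (2 * i) + 3 * (q / 4 ^ i)) := h10
            _ = 4 ^ i * (Ej C g (2 * i)) + 3 * (4 ^ i * (q / 4 ^ i)) := by ring
            _ = _ := by rw [h7]
        calc (4 : ℝ) ^ (i + 1) * (Ej C g (2 * i + 1 + 1) : ℝ)
            ≤ 4 ^ i * (Ej C g (2 * i) : ℝ) + 3 * q := h8
          _ ≤ (C.card : ℝ) ^ 2 * (1 + 3 * ∑ k ∈ range i, 1 / ((I - k : ℕ) : ℝ) ^ 2) + 3 * q := by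
            linarith
          _ = _ := by rw [hq]; ring
    have h2 := h1 I le_rfl
    have h3 := sum_inv_sq I
    have h4 : (4 : ℝ) ^ I * (Ej C g (2 * I) : ℝ) ≤ 7 * (C.card : ℝ) ^ 2 := by
      refine h2.trans ?_
      have : (0 : ℝ) ≤ (C.card : ℝ) ^ 2 := by positivity
      nlinarith
    have h5 : (C.offDiag.filter (fun s => ∀ j : Fin (2 * I),
        0 < ev (fs j.1) s.1 * ev (fs j.1) s.2)).card = Ej C g (2 * I) := by
      unfold Ej
      apply cfc
      intro s _
      constructor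
      · intro h i hi
        exact h ⟨i, hi⟩
      · intro h j
        exact h j.1 j.2
    rw [le_div_iff₀ (by positivity), h5, mul_comm]
    exact h4

end Pool.Agent.H91.Per
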